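import Mathlib

/-!
# Bootstrap percolation: definitions and deterministic facts
-/

open MeasureTheory Set
open scoped ENNReal

namespace Pool.Agent.Q61.Boot

/-- The square lattice. -/
abbrev Site : Type := ℤ × ℤ

/-- An update family: a finite nonempty collection of finite subsets of `ℤ² ∖ {0}`. -/
structure UpdateFamily where
  /-- the rules -/
  rules : Finset (Finset Site)
  nonempty : rules.Nonempty
  zero_notMem : ∀ X ∈ rules, (0 : Site) ∉ X

namespace UpdateFamily

variable (U : UpdateFamily)

/-- One step of the dynamics: `A ∪ {x : x + X ⊆ A for some rule X}`. -/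
def step (A : Set Site) : Set Site :=
  A ∪ {x | ∃ X ∈ U.rules, ∀ y ∈ X, x + y ∈ A}

/-- The set `A_t` of sites infected by time `t`. -/
def infected (A : Set Site) : ℕ → Set Site
  | 0 => A
  | t + 1 => U.step (infected A t)

/-- The closure `[A]`. -/
def closure (A : Set Site) : Set Site := ⋃ t, U.infected A t

/-- The half plane `ℍ_u`, `u = (cos θ, sin θ)`. -/
def halfPlane (θ : ℝ) : Set Site :=
  {x | (x.1 : ℝ) * Real.cos θ + (x.2 : ℝ) * Real.sin θ < 0}

/-- The direction `(cos θ, sin θ)` is stable. -/
def Stable (θ : ℝ) : Prop := U.closure (halfPlane θ) = halfPlane θ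

/-- Subcritical: in every open semicircle (the directions with angle in
`(φ, φ + π)`) the stable directions have positive arc length. -/
def Subcritical : Prop :=
  ∀ φ : ℝ, 0 < volume {θ : ℝ | θ ∈ Ioo φ (φ + Real.pi) ∧ U.Stable θ}

variable {U}

lemma subset_step (A : Set Site) : A ⊆ U.step A := subset_union_left

lemma step_mono {A B : Set Site} (h : A ⊆ B) : U.step A ⊆ U.step B := by
  rintro x (hx | ⟨X, hX, hx⟩)
  · exact Or.inl (h hx)
  · exact Or.inr ⟨X, hX, fun y hy => h (hx y hy)⟩

lemma infected_mono {A B : Set Site} (h : A ⊆ B) (t : ℕ) :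
    U.infected A t ⊆ U.infected B t := by
  induction t with
  | zero => exact h
  | succ t ih => exact step_mono ih

lemma infected_succ_subset (A : Set Site) (t : ℕ) :
    U.infected A t ⊆ U.infected A (t + 1) := subset_step _

lemma infected_mono_time (A : Set Site) : Monotone (U.infected A) :=
  monotone_nat_of_le_succ (infected_succ_subset A)

lemma closure_mono {A B : Set Site} (h : A ⊆ B) : U.closure A ⊆ U.closure B := by
  intro x hx
  simp only [closure, mem_iUnion] at hx ⊢
  obtain ⟨t, ht⟩ := hx
  exact ⟨t, infected_mono h t ht⟩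

lemma subset_closure (A : Set Site) : A ⊆ U.closure A := by
  intro x hx
  simp only [closure, mem_iUnion]
  exact ⟨0, hx⟩

/-- A set closed under the rules contains the closure of each of its subsets. -/
lemma closure_subset_of_closed {A B : Set Site} (h : A ⊆ B) (hB : U.step B ⊆ B) :
    U.closure A ⊆ B := by
  intro x hx
  simp only [closure, mem_iUnion] at hx
  obtain ⟨t, ht⟩ := hx
  have : ∀ t, U.infected A t ⊆ B := by
    intro t
    induction t with
    | zero => exact h
    | succ t ih => exact (step_mono ih).trans hB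
  exact this t ht

/-- The rules are finite, so the closure is closed under the rules. -/
lemma step_closure (A : Set Site) : U.step (U.closure A) ⊆ U.closure A := by
  rintro x (hx | ⟨X, hX, hx⟩)
  · exact hx
  · have : ∃ t, ∀ y ∈ X, x + y ∈ U.infected A t := by
      clear hX
      induction X using Finset.induction_on with
      | empty => exact ⟨0, by simp⟩
      | insert a X _ ih =>
        obtain ⟨t, ht⟩ := ih (fun y hy => hx y (Finset.mem_insert_of_mem hy))
        have ha := hx a (Finset.mem_insert_self _ _)
        simp only [closure, mem_iUnion] at ha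
        obtain ⟨s, hs⟩ := ha
        refine ⟨max s t, fun y hy => ?_⟩
        rcases Finset.mem_insert.mp hy with rfl | hy
        · exact infected_mono_time A (le_max_left s t) hs
        · exact infected_mono_time A (le_max_right s t) (ht y hy)
    obtain ⟨t, ht⟩ := this
    simp only [closure, mem_iUnion]
    exact ⟨t + 1, Or.inr ⟨X, hX, ht⟩⟩

/-- Translation of the dynamics. -/
lemma infected_translate (A : Set Site) (v : Site) (t : ℕ) (x : Site) :
    x ∈ U.infected {y | y + v ∈ A} t ↔ x + v ∈ U.infected A t := by
  induction t generalizing x with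
  | zero => exact Iff.rfl
  | succ t ih =>
    simp only [infected, step, mem_union, mem_ofPred_eq, ih]
    refine or_congr Iff.rfl (exists_congr fun X => and_congr Iff.rfl
      (forall_congr' fun y => imp_congr_right fun _ => ?_))
    rw [add_right_comm]

/-- Range bound. -/
def HasRange (U : UpdateFamily) (R : ℤ) : Prop :=
  1 ≤ R ∧ ∀ X ∈ U.rules, ∀ y ∈ X, |y.1| ≤ R ∧ |y.2| ≤ R

lemma exists_hasRange (U : UpdateFamily) : ∃ R : ℕ, U.HasRange R := by
  classical
  obtain ⟨M, hM⟩ : ∃ M : ℕ, ∀ y ∈ U.rules.biUnion id, |y.1| ≤ (M : ℤ) ∧ |y.2| ≤ (M : ℤ) := by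
    refine ⟨(U.rules.biUnion id).sup (fun y => y.1.natAbs ⊔ y.2.natAbs), fun y hy => ?_⟩
    have h := Finset.le_sup (f := fun y : Site => y.1.natAbs ⊔ y.2.natAbs) hy
    simp only [sup_le_iff] at h
    rw [Int.abs_eq_natAbs, Int.abs_eq_natAbs]
    exact ⟨by exact_mod_cast h.1, by exact_mod_cast h.2⟩
  refine ⟨M + 1, by push_cast; omega, fun X hX y hy => ?_⟩
  have := hM y (Finset.mem_biUnion.mpr ⟨X, hX, hy⟩)
  push_cast
  omega

/-- Finite speed of propagation. -/
lemma infected_congr {R : ℤ} (hR : U.HasRange R) {A B : Set Site} (t : ℕ) (x : Site)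
    (h : ∀ y : Site, |y.1 - x.1| ≤ R * t → |y.2 - x.2| ≤ R * t → (y ∈ A ↔ y ∈ B)) :
    x ∈ U.infected A t ↔ x ∈ U.infected B t := by
  induction t generalizing x with
  | zero =>
    exact h x (by simp) (by simp)
  | succ t ih =>
    have hR0 : 1 ≤ R := hR.1
    have hx : x ∈ U.infected A t ↔ x ∈ U.infected B t := by
      refine ih x (fun y h1 h2 => h y ?_ ?_)
      · push_cast; nlinarith
      · push_cast; nlinarith
    simp only [infected, step, mem_union, mem_ofPred_eq]
    refine or_congr hx (exists_congr fun X => and_congr_right fun hX =>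
      (forall_congr' fun y => imp_congr_right fun hy => ?_))
    obtain ⟨h1, h2⟩ := hR.2 X hX y hy
    refine ih (x + y) (fun z hz1 hz2 => h z ?_ ?_)
    · push_cast
      have : |z.1 - x.1| ≤ |z.1 - (x + y).1| + |y.1| := by
        have := abs_add_le (z.1 - (x + y).1) y.1
        have e : z.1 - (x + y).1 + y.1 = z.1 - x.1 := by simp; ring
        rwa [e] at this
      nlinarith
    · push_cast
      have : |z.2 - x.2| ≤ |z.2 - (x + y).2| + |y.2| := by
        have := abs_add_le (z.2 - (x + y).2) y.2
        have e : z.2 - (x + y).2 + y.2 = z.2 - x.2 := by simp; ring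
        rwa [e] at this
      nlinarith

/-- A subcritical family has no empty rule. -/
lemma Subcritical.empty_notMem (hU : U.Subcritical) : (∅ : Finset Site) ∉ U.rules := by
  intro h0
  have h := hU 0
  have : {θ : ℝ | θ ∈ Ioo (0:ℝ) (0 + Real.pi) ∧ U.Stable θ} = ∅ := by
    ext θ
    simp only [mem_ofPred_eq, mem_empty_iff_false, iff_false, not_and]
    intro _ hs
    have h1 : (0 : Site) ∈ U.closure (halfPlane θ) := by
      apply step_closure
      exact Or.inr ⟨∅, h0, by simp⟩
    rw [hs] at h1
    simp [halfPlane] at h1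
  rw [this] at h
  simp at h

lemma infected_empty (h0 : (∅ : Finset Site) ∉ U.rules) (t : ℕ) : U.infected ∅ t = ∅ := by
  induction t with
  | zero => rfl
  | succ t ih =>
    rw [infected, ih]
    ext x
    simp only [step, mem_union, mem_empty_iff_false, mem_ofPred_eq, false_or, iff_false]
    rintro ⟨X, hX, h⟩
    rcases X.eq_empty_or_nonempty with rfl | ⟨y, hy⟩
    · exact h0 hX
    · exact h y hy

end UpdateFamily

end Pool.Agent.Q61.Boot
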