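import Pool.Agent.Q61.BootMain

/-!
# The occupation time of the origin at criticality
-/

open MeasureTheory Set ProbabilityTheory
open scoped ENNReal

namespace Pool.Agent.Q61.Boot

namespace UpdateFamily

variable {U : UpdateFamily}

lemma law_one_ae : ∀ᵐ ω ∂(law 1), ∀ x : Site, ω x = true := by
  rw [ae_all_iff]
  intro x
  rw [ae_iff]
  have h : {ω : Config | ¬ ω x = true} = (Function.eval x : Config → Bool) ⁻¹' ({false} : Set Bool) := by
    ext ω
    simp
  rw [h, law, (measurePreserving_eval_infinitePi (fun _ : Site => siteLaw 1) x).measure_preimage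
    (measurableSet_singleton _).nullMeasurableSet, siteLaw_singleton]
  simp

lemma law_zero_ae : ∀ᵐ ω ∂(law 0), ∀ x : Site, ω x = false := by
  rw [ae_all_iff]
  intro x
  rw [ae_iff]
  have h : {ω : Config | ¬ ω x = false} = (Function.eval x : Config → Bool) ⁻¹' ({true} : Set Bool) := by
    ext ω
    simp
  rw [h, law, (measurePreserving_eval_infinitePi (fun _ : Site => siteLaw 0) x).measure_preimage
    (measurableSet_singleton _).nullMeasurableSet, siteLaw_singleton]
  simp

lemma percolates_one : law 1 {ω | U.closure (init ω) = univ} = 1 := by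
  have hae : ∀ᵐ ω ∂(law 1), U.closure (init ω) = univ := by
    filter_upwards [law_one_ae] with ω hω
    rw [eq_univ_iff_forall]
    intro x
    exact subset_closure _ (hω x)
  have : ({ω | U.closure (init ω) = univ} : Set Config) =ᵐ[law 1] univ := by
    rw [Filter.eventuallyEq_univ]
    exact hae
  rw [measure_congr this, measure_univ]

lemma pc_mem (U : UpdateFamily) : U.pc ∈ unitInterval := by
  have h1 : (1 : ℝ) ∈ {p : ℝ | ∃ h : p ∈ unitInterval,
      law ⟨p, h⟩ {ω | U.closure (init ω) = univ} = 1} :=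
    ⟨⟨by norm_num, le_rfl⟩, percolates_one⟩
  constructor
  · exact Real.sInf_nonneg (fun p hp => hp.1.1)
  · exact csInf_le ⟨0, fun p hp => hp.1.1⟩ h1

lemma pc_le {p : unitInterval} (h : law p {ω | U.closure (init ω) = univ} = 1) :
    U.pc ≤ p := csInf_le ⟨0, fun _ hp => hp.1.1⟩ ⟨p.2, h⟩

lemma exists_lt_one (h : U.pc < 1) :
    ∃ p : unitInterval, p < 1 ∧ law p {ω | U.closure (init ω) = univ} = 1 := by
  have hne : {p : ℝ | ∃ h : p ∈ unitInterval,
      law ⟨p, h⟩ {ω | U.closure (init ω) = univ} = 1}.Nonempty :=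
    ⟨1, ⟨by norm_num, le_rfl⟩, percolates_one⟩
  obtain ⟨p, ⟨hp, hp2⟩, hp3⟩ := exists_lt_of_csInf_lt hne h
  exact ⟨⟨p, hp⟩, hp3, hp2⟩

/-- The lower bound at large times. -/
lemma thr_le {R n : ℕ} (hR : U.HasRange R) (hRn : R ≤ n) (h0 : (∅ : Finset Site) ∉ U.rules)
    (hpc : U.pc < 1) {q : unitInterval} (hq : (q : ℝ) ≤ U.pc) :
    thr R ≤ (4 * R * n : ℕ) * law q {ω | (0 : Site) ∉ U.infected (init ω) n} := by
  have hR1 : 1 ≤ R := by exact_mod_cast hR.1
  have hn : 1 ≤ n := hR1.trans hRn
  obtain ⟨p1, hp1, hp1'⟩ := exists_lt_one hpc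
  have hH := noHole_of_percolates hp1 hp1'
  by_contra hc
  push Not at hc
  rcases eq_or_lt_of_le q.2.1 with hq0 | hq0
  · have hq0' : q = 0 := Subtype.ext hq0.symm
    subst hq0'
    have hone : law 0 {ω | (0 : Site) ∉ U.infected (init ω) n} = 1 := by
      have hae : ∀ᵐ ω ∂(law 0), (0 : Site) ∉ U.infected (init ω) n := by
        filter_upwards [law_zero_ae] with ω hω
        have : init ω = ∅ := by
          ext x
          simp [init, hω x]
        rw [this, infected_empty h0]
        simp
      have : ({ω | (0 : Site) ∉ U.infected (init ω) n} : Set Config) =ᵐ[law 0] univ := by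
        rw [Filter.eventuallyEq_univ]
        exact hae
      rw [measure_congr this, measure_univ]
    rw [hone, mul_one] at hc
    have h1 : (1 : ℝ≥0∞) ≤ (4 * R * n : ℕ) := by
      have : 1 ≤ 4 * R * n := by nlinarith
      exact_mod_cast this
    exact absurd (h1.trans_lt hc) (not_lt.mpr (thr_lt_one R).le)
  · have hcont : Continuous fun p : unitInterval =>
        ((4 * R * n : ℕ) : ℝ≥0∞) * law p {ω | (0 : Site) ∉ U.infected (init ω) n} :=
      (ENNReal.continuous_const_mul (ENNReal.natCast_ne_top _)).comp (continuous_law (dependsOn_notMem hR n 0))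
    have hopen : IsOpen {p : unitInterval |
        ((4 * R * n : ℕ) : ℝ≥0∞) * law p {ω | (0 : Site) ∉ U.infected (init ω) n} < thr R} :=
      isOpen_lt hcont continuous_const
    obtain ⟨ε, hε, hball⟩ := Metric.isOpen_iff.mp hopen q hc
    set r : ℝ := max 0 ((q : ℝ) - ε / 2) with hr
    have hr0 : 0 ≤ r := le_max_left _ _
    have hrq : r < q := max_lt hq0 (by linarith)
    have hr1 : r ≤ 1 := hrq.le.trans q.2.2
    have hmem : (⟨r, hr0, hr1⟩ : unitInterval) ∈ Metric.ball q ε := by
      rw [Metric.mem_ball, Subtype.dist_eq, Real.dist_eq, abs_sub_comm, abs_of_pos (by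
        simpa using hrq)]
      have : (q : ℝ) - ε / 2 ≤ r := le_max_right _ _
      simp only
      linarith
    have hlt := hball hmem
    have hperc := percolates_of_small hR hRn hH ⟨r, hr0, hr1⟩ (le_of_lt hlt)
    have := pc_le hperc
    exact absurd (hq.trans this) (not_le.mpr hrq)

/-- The lower bound `ℙ_q(T > n) ≥ c / n` for all `q ≤ p_c`. -/
theorem exists_lower (h0 : (∅ : Finset Site) ∉ U.rules) (hpc : U.pc < 1) :
    ∃ c : ℝ, 0 < c ∧ ∀ q : unitInterval, (q : ℝ) ≤ U.pc → ∀ n : ℕ, 1 ≤ n →
      ENNReal.ofReal (c / n) ≤ law q {ω | (n : ℝ≥0∞) < U.time ω} := by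
  obtain ⟨R, hR⟩ := exists_hasRange U
  have hR1 : 1 ≤ R := by exact_mod_cast hR.1
  have hthr : 0 < (thr R).toReal := ENNReal.toReal_pos (thr_pos R).ne'
    (ne_top_of_lt (thr_lt_one R))
  refine ⟨(thr R).toReal / (4 * R * R), by positivity, fun q hq n hn => ?_⟩
  simp_rw [lt_time_iff]
  have hm : R ≤ max n R := le_max_right _ _
  have hmn : max n R ≤ R * n := max_le (by nlinarith) (by nlinarith)
  have hmono : law q {ω | (0 : Site) ∉ U.infected (init ω) (max n R)} ≤
      law q {ω | (0 : Site) ∉ U.infected (init ω) n} := by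
    refine measure_mono fun ω hω hc => hω ?_
    exact infected_mono_time _ (le_max_left n R) hc
  refine le_trans ?_ hmono
  have key := thr_le hR hm h0 hpc hq
  set P := law q {ω | (0 : Site) ∉ U.infected (init ω) (max n R)} with hP
  have hPtop : P ≠ ⊤ := measure_ne_top _ _
  rw [ENNReal.ofReal_le_iff_le_toReal hPtop]
  have key2 : (thr R).toReal ≤ (4 * R * (max n R) : ℕ) * P.toReal := by
    have := ENNReal.toReal_mono (ENNReal.mul_ne_top (ENNReal.natCast_ne_top _) hPtop) key
    rwa [ENNReal.toReal_mul, ENNReal.toReal_natCast] at this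
  have h3 : ((4 * R * (max n R) : ℕ) : ℝ) ≤ 4 * R * R * n := by
    have : 4 * R * (max n R) ≤ 4 * R * R * n := by
      calc 4 * R * (max n R) ≤ 4 * R * (R * n) := Nat.mul_le_mul_left _ hmn
        _ = 4 * R * R * n := by ring
    exact_mod_cast this
  have hP0 : 0 ≤ P.toReal := ENNReal.toReal_nonneg
  have hn0 : (0 : ℝ) < n := by exact_mod_cast hn
  have hR0 : (0 : ℝ) < R := by exact_mod_cast hR1
  rw [div_div, div_le_iff₀ (by positivity)]
  calc (thr R).toReal ≤ (4 * R * (max n R) : ℕ) * P.toReal := key2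
    _ ≤ (4 * R * R * n) * P.toReal := by gcongr
    _ = P.toReal * (4 * R * R * n) := by ring

lemma sum_indicator_le (ω : Config) (N : ℕ) :
    ∑ n ∈ Finset.range N, ({ω | (n : ℝ≥0∞) < U.time ω} : Set Config).indicator 1 ω ≤
      min (U.time ω) N := by
  induction N with
  | zero => simp
  | succ N ih =>
    rw [Finset.sum_range_succ]
    by_cases h : (0 : Site) ∈ U.infected (init ω) N
    · have h' : ω ∉ {ω | (N : ℝ≥0∞) < U.time ω} := by
        simp only [mem_ofPred_eq, lt_time_iff, not_not]
        exact h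
      rw [indicator_of_notMem h', add_zero]
      refine ih.trans (min_le_min_left _ ?_)
      exact_mod_cast Nat.le_succ N
    · have h' : ω ∈ {ω | (N : ℝ≥0∞) < U.time ω} := by
        simp only [mem_ofPred_eq, lt_time_iff]
        exact h
      rw [indicator_of_mem h', Pi.one_apply]
      have h1 := succ_le_time h
      refine le_min ?_ ?_
      · exact (add_le_add_left (ih.trans (min_le_right _ _)) 1).trans h1
      · push_cast
        exact add_le_add_left (ih.trans (min_le_right _ _)) 1

theorem lintegral_time_eq_top {q : unitInterval} {c : ℝ} (hc : 0 < c)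
    (hlow : ∀ n : ℕ, 1 ≤ n → ENNReal.ofReal (c / n) ≤ law q {ω | (n : ℝ≥0∞) < U.time ω}) :
    ∫⁻ ω, U.time ω ∂(law q) = ⊤ := by
  obtain ⟨R, hR⟩ := exists_hasRange U
  have hmeas : ∀ n : ℕ, MeasurableSet ({ω | (n : ℝ≥0∞) < U.time ω} : Set Config) := by
    intro n
    simp_rw [lt_time_iff]
    exact (dependsOn_notMem hR n 0).measurableSet
  by_contra htop
  have hsum : ∀ N : ℕ, ∑ n ∈ Finset.range N, law q {ω | (n : ℝ≥0∞) < U.time ω} ≤
      ∫⁻ ω, U.time ω ∂(law q) := by
    intro N
    have : ∑ n ∈ Finset.range N, law q {ω | (n : ℝ≥0∞) < U.time ω} =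
        ∫⁻ ω, ∑ n ∈ Finset.range N,
          ({ω | (n : ℝ≥0∞) < U.time ω} : Set Config).indicator 1 ω ∂(law q) := by
      rw [lintegral_finsetSum]
      · refine Finset.sum_congr rfl fun n _ => ?_
        rw [lintegral_indicator_one (hmeas n)]
      · intro n _
        exact measurable_one.indicator (hmeas n)
    rw [this]
    exact lintegral_mono fun ω => (sum_indicator_le ω N).trans (min_le_left _ _)
  have hts : ∑' n : ℕ, ENNReal.ofReal (c / n) ≤ ∫⁻ ω, U.time ω ∂(law q) := by
    refine (ENNReal.tsum_le_tsum (g := fun n : ℕ => law q {ω | (n : ℝ≥0∞) < U.time ω})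
      fun n => ?_).trans (ENNReal.tsum_le_of_sum_range_le hsum)
    rcases Nat.eq_zero_or_pos n with rfl | hn
    · simp
    · exact hlow n hn
  have hne : ∑' n : ℕ, ENNReal.ofReal (c / n) ≠ ⊤ := ne_top_of_le_ne_top htop hts
  have hs := ENNReal.summable_toReal hne
  have hs2 : Summable fun n : ℕ => c / (n : ℝ) := by
    refine hs.congr fun n => ?_
    rw [ENNReal.toReal_ofReal (by positivity)]
  have hs3 : Summable fun n : ℕ => 1 / (n : ℝ) := by
    have := hs2.mul_left (1 / c)
    refine this.congr fun n => ?_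
    field_simp
  exact Real.not_summable_one_div_natCast hs3

/-- At `p = 1` the origin is infected at time `0`. -/
theorem time_one : ∀ᵐ ω ∂(law 1), U.time ω = 0 := by
  filter_upwards [law_one_ae] with ω hω
  refine le_antisymm ?_ bot_le
  have h : (0 : Site) ∈ U.infected (init ω) 0 := hω 0
  have := iInf₂_le (f := fun (t : ℕ) (_ : (0 : Site) ∈ U.infected (init ω) t) =>
      (t : ℝ≥0∞)) 0 h
  rw [Nat.cast_zero] at this
  exact this

end UpdateFamily

end Pool.Agent.Q61.Boot
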