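import Pool.Agent.Q61.BootDyn

/-!
# Boxes, frames and chains of bad boxes
-/

open MeasureTheory Set
open scoped ENNReal

namespace Pool.Agent.Q61.Boot

/-- The nine vectors with coordinates in `{-1,0,1}`. -/
noncomputable def dirs : Finset Site := (Finset.Icc (-1) 1) ×ˢ (Finset.Icc (-1) 1)

lemma card_dirs : dirs.card = 9 := by decide

lemma mem_dirs {d : Site} : d ∈ dirs ↔ |d.1| ≤ 1 ∧ |d.2| ≤ 1 := by
  simp only [dirs, Finset.mem_product, Finset.mem_Icc, abs_le]

/-- Lists `[b₀,…,b_n]` with `b₀ = b` and consecutive entries differing by a vector of `dirs`. -/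
noncomputable def paths : ℕ → Site → Finset (List Site)
  | 0, b => {[b]}
  | n + 1, b => dirs.biUnion fun d => (paths n (b + d)).image (fun l => b :: l)

lemma card_paths (n : ℕ) (b : Site) : (paths n b).card ≤ 9 ^ n := by
  induction n generalizing b with
  | zero => simp [paths]
  | succ n ih =>
    rw [paths]
    refine (Finset.card_biUnion_le).trans ?_
    refine (Finset.sum_le_sum (g := fun _ => 9 ^ n) fun d _ =>
      (Finset.card_image_le.trans (ih _))).trans ?_
    rw [Finset.sum_const, card_dirs, smul_eq_mul, pow_succ]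
    omega

lemma length_of_mem_paths {n : ℕ} {b : Site} {l : List Site} (h : l ∈ paths n b) :
    l.length = n + 1 := by
  induction n generalizing b l with
  | zero => simp only [paths, Finset.mem_singleton] at h; simp [h]
  | succ n ih =>
    simp only [paths, Finset.mem_biUnion, Finset.mem_image] at h
    obtain ⟨d, _, l', hl', rfl⟩ := h
    simp [ih hl']

lemma take_support_mem_paths {G : SimpleGraph Site}
    (hG : ∀ b c, G.Adj b c → |c.1 - b.1| ≤ 1 ∧ |c.2 - b.2| ≤ 1) {n : ℕ} {b c : Site}
    (p : G.Walk b c) (hn : n ≤ p.length) : p.support.take (n + 1) ∈ paths n b := by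
  induction n generalizing b with
  | zero =>
    cases p with
    | nil => simp [paths]
    | cons h p => simp [paths]
  | succ n ih =>
    cases p with
    | nil => simp at hn
    | @cons _ v _ h p =>
      simp only [SimpleGraph.Walk.length_cons, Nat.add_le_add_iff_right] at hn
      simp only [SimpleGraph.Walk.support_cons, List.take_succ_cons, paths, Finset.mem_biUnion,
        Finset.mem_image]
      have hv := hG _ _ h
      refine ⟨v - b, mem_dirs.mpr hv, p.support.take (n + 1), ?_, rfl⟩
      rw [add_sub_cancel]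
      exact ih p hn

lemma walk_dist {G : SimpleGraph Site}
    (hG : ∀ b c, G.Adj b c → |c.1 - b.1| ≤ 1 ∧ |c.2 - b.2| ≤ 1) {b c : Site}
    (p : G.Walk b c) : |c.1 - b.1| ≤ p.length ∧ |c.2 - b.2| ≤ p.length := by
  induction p with
  | nil => simp
  | @cons u v w h p ih =>
    have hv := hG _ _ h
    simp only [SimpleGraph.Walk.length_cons, Nat.cast_add, Nat.cast_one, abs_le] at *
    omega

namespace UpdateFamily

variable (U : UpdateFamily)

/-- The box of side `L` containing `x`. -/
def box (L : ℤ) (x : Site) : Site := (x.1 / L, x.2 / L)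

/-- `x` is in the frame of width `R` of its box. -/
def InFrame (L R : ℤ) (x : Site) : Prop :=
  x.1 % L < R ∨ L - R ≤ x.1 % L ∨ x.2 % L < R ∨ L - R ≤ x.2 % L

/-- The box `b` is bad if a site of its frame is not infected by time `n`. -/
def Bad (L R : ℤ) (n : ℕ) (A : Set Site) (b : Site) : Prop :=
  ∃ x, box L x = b ∧ InFrame L R x ∧ x ∉ U.infected A n

lemma ediv_eq_of_near {L R x y : ℤ} (hL : 0 < L) (h1 : R ≤ x % L) (h2 : x % L < L - R)
    (h : |y - x| ≤ R) : y / L = x / L := by
  have e := Int.mul_ediv_add_emod x L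
  rw [abs_le] at h
  have : y = (x % L + (y - x)) + L * (x / L) := by linarith
  rw [this, Int.add_mul_ediv_left _ _ hL.ne', Int.ediv_eq_zero_of_lt (by linarith) (by linarith),
    zero_add]

lemma ediv_near {L R x y : ℤ} (hL : 0 < L) (hRL : R ≤ L) (h : |y - x| ≤ R) :
    |y / L - x / L| ≤ 1 := by
  have e1 := Int.mul_ediv_add_emod x L
  have e2 := Int.mul_ediv_add_emod y L
  have a1 := Int.emod_nonneg x hL.ne'
  have a2 := Int.emod_lt_of_pos x hL
  have b1 := Int.emod_nonneg y hL.ne'
  have b2 := Int.emod_lt_of_pos y hL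
  rw [abs_le] at h ⊢
  constructor
  · by_contra hc
    push Not at hc
    have : L * (y / L - x / L) ≤ L * (-2) := by
      apply mul_le_mul_of_nonneg_left _ hL.le; omega
    nlinarith
  · by_contra hc
    push Not at hc
    have : L * 2 ≤ L * (y / L - x / L) := by
      apply mul_le_mul_of_nonneg_left _ hL.le; omega
    nlinarith

/-- The graph of never infected sites, with jumps at most `R`. -/
def siteGraph (R : ℤ) (A : Set Site) : SimpleGraph Site where
  Adj x y := x ≠ y ∧ x ∉ U.closure A ∧ y ∉ U.closure A ∧ |y.1 - x.1| ≤ R ∧ |y.2 - x.2| ≤ R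
  symm := ⟨fun x y h => ⟨h.1.symm, h.2.2.1, h.2.1, by rw [abs_sub_comm]; exact h.2.2.2.1,
    by rw [abs_sub_comm]; exact h.2.2.2.2⟩⟩
  loopless := ⟨fun x h => h.1 rfl⟩

/-- The graph of bad boxes. -/
def boxGraph (L R : ℤ) (n : ℕ) (A : Set Site) : SimpleGraph Site where
  Adj b c := b ≠ c ∧ U.Bad L R n A b ∧ U.Bad L R n A c ∧ |c.1 - b.1| ≤ 1 ∧ |c.2 - b.2| ≤ 1
  symm := ⟨fun x y h => ⟨h.1.symm, h.2.2.1, h.2.1, by rw [abs_sub_comm]; exact h.2.2.2.1,
    by rw [abs_sub_comm]; exact h.2.2.2.2⟩⟩
  loopless := ⟨fun x h => h.1 rfl⟩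

variable {U}

lemma trap {L R : ℤ} {n : ℕ} {A : Set Site} (hL : 0 < L) {x y : Site}
    (h : (U.siteGraph R A).Adj x y) (hb : ¬ U.Bad L R n A (box L x)) : box L y = box L x := by
  have hx : ¬ InFrame L R x := by
    intro hf
    exact hb ⟨x, rfl, hf, fun hc => h.2.1 (by
      simp only [closure, mem_iUnion]; exact ⟨n, hc⟩)⟩
  simp only [InFrame, not_or, not_lt, not_le] at hx
  have h1 := ediv_eq_of_near hL hx.1 hx.2.1 h.2.2.2.1
  have h2 := ediv_eq_of_near hL hx.2.2.1 hx.2.2.2 h.2.2.2.2
  simp only [box, h1, h2]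

lemma reach_box {L R : ℤ} {n : ℕ} {A : Set Site} (hL : 0 < L) (hRL : R ≤ L) {x y : Site}
    (h : (U.siteGraph R A).Reachable x y) :
    box L y = box L x ∨ (U.Bad L R n A (box L x) ∧ U.Bad L R n A (box L y) ∧
      (U.boxGraph L R n A).Reachable (box L x) (box L y)) := by
  obtain ⟨p⟩ := h
  induction p with
  | nil => exact Or.inl rfl
  | @cons u v w h p ih =>
    by_cases huv : box L v = box L u
    · rwa [huv] at ih
    · have hbu : U.Bad L R n A (box L u) := by
        by_contra hc
        exact huv (trap hL h hc)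
      have hbv : U.Bad L R n A (box L v) := by
        by_contra hc
        exact huv (trap hL h.symm hc).symm
      have hadj : (U.boxGraph L R n A).Adj (box L u) (box L v) :=
        ⟨fun e => huv e.symm, hbu, hbv, ediv_near hL hRL h.2.2.2.1, ediv_near hL hRL h.2.2.2.2⟩
      rcases ih with ih | ⟨_, ih2, ih3⟩
      · rw [ih]
        exact Or.inr ⟨hbu, hbv, hadj.reachable⟩
      · exact Or.inr ⟨hbu, ih2, hadj.reachable.trans ih3⟩

/-- There is a nonrepeating chain of `n+1` bad boxes starting at `b`. -/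
def Chain (U : UpdateFamily) (L R : ℤ) (t : ℕ) (A : Set Site) (n : ℕ) (b : Site) : Prop :=
  ∃ l ∈ paths n b, l.Nodup ∧ ∀ c ∈ l, U.Bad L R t A c

lemma boxGraph_support {L R : ℤ} {t : ℕ} {A : Set Site} {b c : Site}
    (p : (U.boxGraph L R t A).Walk b c) (hb : U.Bad L R t A b) :
    ∀ d ∈ p.support, U.Bad L R t A d := by
  induction p with
  | nil => simpa using hb
  | @cons u v w h p ih =>
    intro d hd
    rw [SimpleGraph.Walk.support_cons, List.mem_cons] at hd
    rcases hd with rfl | hd
    · exact hb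
    · exact ih h.2.2.1 d hd

lemma chain_of_infinite {L R : ℤ} {t : ℕ} {A : Set Site} (hL : 0 < L) (hRL : R ≤ L) {x : Site}
    (h : {y | (U.siteGraph R A).Reachable x y}.Infinite) (n : ℕ) :
    U.Chain L R t A n (box L x) := by
  classical
  -- a far site in the component
  obtain ⟨y, hy, hfar⟩ : ∃ y, (U.siteGraph R A).Reachable x y ∧
      ((n : ℤ) + 1 ≤ |(box L y).1 - (box L x).1| ∨ (n : ℤ) + 1 ≤ |(box L y).2 - (box L x).2|) := by
    by_contra hc
    push Not at hc
    refine h (Set.Finite.subset (Set.Finite.prod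
      (Set.finite_Icc (L * (x.1 / L - n)) (L * (x.1 / L + n) + L))
      (Set.finite_Icc (L * (x.2 / L - n)) (L * (x.2 / L + n) + L))) ?_)
    intro y hy
    obtain ⟨h1, h2⟩ := hc y hy
    simp only [box, Int.lt_add_one_iff] at h1 h2
    rw [abs_le] at h1 h2
    have e1 := Int.mul_ediv_add_emod y.1 L
    have e2 := Int.mul_ediv_add_emod y.2 L
    have a1 := Int.emod_nonneg y.1 hL.ne'
    have a2 := Int.emod_lt_of_pos y.1 hL
    have b1 := Int.emod_nonneg y.2 hL.ne'
    have b2 := Int.emod_lt_of_pos y.2 hL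
    have c1 : L * (x.1 / L - n) ≤ L * (y.1 / L) := mul_le_mul_of_nonneg_left (by linarith) hL.le
    have c2 : L * (y.1 / L) ≤ L * (x.1 / L + n) := mul_le_mul_of_nonneg_left (by linarith) hL.le
    have c3 : L * (x.2 / L - n) ≤ L * (y.2 / L) := mul_le_mul_of_nonneg_left (by linarith) hL.le
    have c4 : L * (y.2 / L) ≤ L * (x.2 / L + n) := mul_le_mul_of_nonneg_left (by linarith) hL.le
    refine ⟨⟨by linarith, by linarith⟩, ⟨by linarith, by linarith⟩⟩
  have hne : box L y ≠ box L x := by
    intro e
    rw [e] at hfar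
    simp at hfar
    omega
  rcases reach_box (n := t) hL hRL hy with e | ⟨hbx, hby, hreach⟩
  · exact absurd e hne
  obtain ⟨p, hp⟩ := hreach.exists_isPath
  have hG : ∀ b c, (U.boxGraph L R t A).Adj b c → |c.1 - b.1| ≤ 1 ∧ |c.2 - b.2| ≤ 1 :=
    fun b c h => h.2.2.2
  have hd := walk_dist hG p
  have hlen : n ≤ p.length := by
    rcases hfar with hf | hf
    · have := hf.trans hd.1
      omega
    · have := hf.trans hd.2
      omega
  refine ⟨p.support.take (n + 1), take_support_mem_paths hG p hlen, ?_, ?_⟩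
  · exact hp.support_nodup.sublist (List.take_sublist _ _)
  · intro c hc
    exact boxGraph_support p hbx c (List.mem_of_mem_take hc)

/-- A finite component of the never infected sites has a closed complement. -/
lemma closed_compl_component {R : ℤ} (hR : U.HasRange R) {A : Set Site} {x : Site}
    (hx : x ∉ U.closure A) :
    U.step {y | (U.siteGraph R A).Reachable x y}ᶜ ⊆ {y | (U.siteGraph R A).Reachable x y}ᶜ := by
  rintro z (hz | ⟨X, hX, hz⟩)
  · exact hz
  · intro hc
    have hzW : z ∉ U.closure A := by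
      obtain ⟨p⟩ := SimpleGraph.Reachable.symm hc
      cases p with
      | nil => exact hx
      | cons h p => exact h.2.1
    have : ∃ y ∈ X, z + y ∉ U.closure A := by
      by_contra hcon
      push Not at hcon
      exact hzW (step_closure A (Or.inr ⟨X, hX, hcon⟩))
    obtain ⟨y, hy, hyW⟩ := this
    have hy' := hz y hy
    apply hy'
    have hadj : (U.siteGraph R A).Adj z (z + y) := by
      refine ⟨?_, hzW, hyW, ?_, ?_⟩
      · intro e
        have : y = 0 := by simpa using e
        exact U.zero_notMem X hX (this ▸ hy)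
      · simpa using (hR.2 X hX y hy).1
      · simpa using (hR.2 X hX y hy).2
    exact SimpleGraph.Reachable.trans hc hadj.reachable

/-- `U` has no finite nonempty stable hole. -/
def NoHole (U : UpdateFamily) : Prop :=
  ∀ K : Finset Site, K.Nonempty → ¬ U.step (K : Set Site)ᶜ ⊆ (K : Set Site)ᶜ

/-- Deterministic criterion. -/
lemma closure_eq_univ {L R : ℤ} {t : ℕ} {A : Set Site} (hL : 0 < L) (hRL : R ≤ L)
    (hR : U.HasRange R) (hH : U.NoHole) (h : ∀ b, ∃ n, ¬ U.Chain L R t A n b) :
    U.closure A = univ := by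
  classical
  by_contra hc
  obtain ⟨x, hx⟩ := (Set.ne_univ_iff_exists_notMem _).mp hc
  have hfin : {y | (U.siteGraph R A).Reachable x y}.Finite := by
    by_contra hinf
    obtain ⟨n, hn⟩ := h (box L x)
    exact hn (chain_of_infinite hL hRL hinf n)
  have := closed_compl_component hR hx
  refine hH hfin.toFinset ⟨x, by simp⟩ ?_
  simpa using this

end UpdateFamily

end Pool.Agent.Q61.Boot
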