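import Pool.Agent.Q61.BootProb

/-!
# A finite-size criterion for percolation
-/

open MeasureTheory Set ProbabilityTheory
open scoped ENNReal

namespace Pool.Agent.Q61.Boot

namespace UpdateFamily

variable (U : UpdateFamily)

/-- The critical probability. -/
noncomputable def pc : ℝ :=
  sInf {p : ℝ | ∃ h : p ∈ unitInterval, law ⟨p, h⟩ {ω | U.closure (init ω) = univ} = 1}

/-- The occupation time of the origin (`⊤` if the origin is never infected). -/
noncomputable def time (ω : Config) : ℝ≥0∞ :=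
  ⨅ (t : ℕ) (_ : (0 : Site) ∈ U.infected (init ω) t), (t : ℝ≥0∞)

variable {U}

lemma lt_time_iff (ω : Config) (n : ℕ) :
    (n : ℝ≥0∞) < U.time ω ↔ (0 : Site) ∉ U.infected (init ω) n := by
  constructor
  · intro h hc
    exact absurd (iInf₂_le (f := fun (t : ℕ) (_ : (0 : Site) ∈ U.infected (init ω) t) =>
      (t : ℝ≥0∞)) n hc) (not_le.mpr h)
  · intro h
    have : ((n + 1 : ℕ) : ℝ≥0∞) ≤ U.time ω := by
      refine le_iInf₂ fun t ht => ?_
      by_contra hc
      push Not at hc
      have : t ≤ n := by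
        have := Nat.cast_lt.mp hc
        omega
      exact h (infected_mono_time _ this ht)
    exact lt_of_lt_of_le (by exact_mod_cast Nat.lt_succ_self n) this

lemma succ_le_time {ω : Config} {n : ℕ} (h : (0 : Site) ∉ U.infected (init ω) n) :
    (n : ℝ≥0∞) + 1 ≤ U.time ω := by
  have : ((n + 1 : ℕ) : ℝ≥0∞) ≤ U.time ω := by
    refine le_iInf₂ fun t ht => ?_
    by_contra hc
    push Not at hc
    have : t ≤ n := by
      have := Nat.cast_lt.mp hc
      omega
    exact h (infected_mono_time _ this ht)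
  exact_mod_cast this

/-- The event that `x` is not infected by time `n` is local. -/
lemma dependsOn_notMem {R : ℤ} (hR : U.HasRange R) (n : ℕ) (x : Site) :
    DependsOn {ω | x ∉ U.infected (init ω) n}
      ((Finset.Icc (x.1 - R * n) (x.1 + R * n)) ×ˢ (Finset.Icc (x.2 - R * n) (x.2 + R * n))) := by
  intro ω ω' h
  simp only [mem_ofPred_eq]
  refine not_congr (infected_congr hR n x fun y h1 h2 => ?_)
  rw [abs_le] at h1 h2
  have := h y (by
    simp only [Finset.mem_product, Finset.mem_Icc]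
    refine ⟨⟨by linarith, by linarith⟩, ⟨by linarith, by linarith⟩⟩)
  simp only [init, mem_ofPred_eq, this]

/-- The window of a box. -/
noncomputable def window (R n : ℕ) (b : Site) : Finset Site :=
  (Finset.Icc ((n : ℤ) * (b.1 - R)) ((n : ℤ) * (b.1 + R + 1) - 1)) ×ˢ
    (Finset.Icc ((n : ℤ) * (b.2 - R)) ((n : ℤ) * (b.2 + R + 1) - 1))

lemma dependsOn_bad {R n : ℕ} (hR : U.HasRange R) (hn : 1 ≤ n) (b : Site) :
    DependsOn {ω | U.Bad n R n (init ω) b} (window R n b) := by
  have hn' : (0 : ℤ) < n := by exact_mod_cast hn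
  have key : ∀ ω ω' : Config, (∀ x ∈ window R n b, ω x = ω' x) →
      U.Bad n R n (init ω) b → U.Bad n R n (init ω') b := by
    rintro ω ω' h ⟨x, rfl, hx, hx2⟩
    refine ⟨x, rfl, hx, ?_⟩
    have h3 := (dependsOn_notMem hR n x).mono (T := window R n (box n x)) ?_
    · exact (h3 ω ω' h).mp hx2
    · intro y hy
      simp only [Finset.mem_product, Finset.mem_Icc, window, box] at hy ⊢
      have e1 := Int.mul_ediv_add_emod x.1 n
      have e2 := Int.mul_ediv_add_emod x.2 n
      have a1 := Int.emod_nonneg x.1 hn'.ne'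
      have a2 := Int.emod_lt_of_pos x.1 hn'
      have b1 := Int.emod_nonneg x.2 hn'.ne'
      have b2 := Int.emod_lt_of_pos x.2 hn'
      refine ⟨⟨by nlinarith, by nlinarith⟩, ⟨by nlinarith, by nlinarith⟩⟩
  intro ω ω' h
  exact ⟨key ω ω' h, key ω' ω fun x hx => (h x hx).symm⟩

/-- The sites of the frame of a box. -/
noncomputable def frame (R n : ℕ) (b : Site) : Finset Site :=
  ((Finset.Ico ((n : ℤ) * b.1) (n * b.1 + R)) ×ˢ (Finset.Ico ((n : ℤ) * b.2) (n * b.2 + n))) ∪
  ((Finset.Ico ((n : ℤ) * b.1 + n - R) (n * b.1 + n)) ×ˢ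
    (Finset.Ico ((n : ℤ) * b.2) (n * b.2 + n))) ∪
  (((Finset.Ico ((n : ℤ) * b.1) (n * b.1 + n)) ×ˢ (Finset.Ico ((n : ℤ) * b.2) (n * b.2 + R))) ∪
  ((Finset.Ico ((n : ℤ) * b.1) (n * b.1 + n)) ×ˢ
    (Finset.Ico ((n : ℤ) * b.2 + n - R) (n * b.2 + n))))

lemma card_frame (R n : ℕ) (b : Site) : (frame R n b).card ≤ 4 * R * n := by
  unfold frame
  refine (Finset.card_union_le _ _).trans ?_
  refine (add_le_add (Finset.card_union_le _ _) (Finset.card_union_le _ _)).trans ?_
  simp only [Finset.card_product, Int.card_Ico]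
  have e1 : ((n : ℤ) * b.1 + R - n * b.1).toNat = R := by
    rw [add_sub_cancel_left]; simp
  have e2 : ((n : ℤ) * b.2 + R - n * b.2).toNat = R := by
    rw [add_sub_cancel_left]; simp
  have e3 : ((n : ℤ) * b.1 + n - n * b.1).toNat = n := by
    rw [add_sub_cancel_left]; simp
  have e4 : ((n : ℤ) * b.2 + n - n * b.2).toNat = n := by
    rw [add_sub_cancel_left]; simp
  have e5 : ((n : ℤ) * b.1 + n - (n * b.1 + n - R)).toNat = R := by
    rw [sub_sub_cancel]; simp
  have e6 : ((n : ℤ) * b.2 + n - (n * b.2 + n - R)).toNat = R := by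
    rw [sub_sub_cancel]; simp
  rw [e1, e2, e3, e4, e5, e6]
  nlinarith

lemma mem_frame {R n : ℕ} (hn : 1 ≤ n) {x : Site} (h : InFrame n R x) :
    x ∈ frame R n (box n x) := by
  have hn' : (0 : ℤ) < n := by exact_mod_cast hn
  have e1 := Int.mul_ediv_add_emod x.1 n
  have e2 := Int.mul_ediv_add_emod x.2 n
  have a1 := Int.emod_nonneg x.1 hn'.ne'
  have a2 := Int.emod_lt_of_pos x.1 hn'
  have b1 := Int.emod_nonneg x.2 hn'.ne'
  have b2 := Int.emod_lt_of_pos x.2 hn'
  simp only [frame, Finset.mem_union, Finset.mem_product, Finset.mem_Ico, box]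
  rcases h with h | h | h | h
  · exact Or.inl (Or.inl ⟨⟨by linarith, by linarith⟩, ⟨by linarith, by linarith⟩⟩)
  · exact Or.inl (Or.inr ⟨⟨by linarith, by linarith⟩, ⟨by linarith, by linarith⟩⟩)
  · exact Or.inr (Or.inl ⟨⟨by linarith, by linarith⟩, ⟨by linarith, by linarith⟩⟩)
  · exact Or.inr (Or.inr ⟨⟨by linarith, by linarith⟩, ⟨by linarith, by linarith⟩⟩)

lemma law_notMem {R : ℤ} (hR : U.HasRange R) (p : unitInterval) (n : ℕ) (x : Site) :
    law p {ω | x ∉ U.infected (init ω) n} = law p {ω | (0 : Site) ∉ U.infected (init ω) n} := by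
  rw [← law_translate p x (dependsOn_notMem hR n 0).measurableSet]
  congr 1
  ext ω
  simp only [mem_ofPred_eq]
  have h := infected_translate (U := U) (init ω) x n 0
  rw [zero_add] at h
  rw [← h]
  rfl

/-- The probability that a box is bad. -/
lemma law_bad_le {R n : ℕ} (hR : U.HasRange R) (hn : 1 ≤ n) (p : unitInterval) (b : Site) :
    law p {ω | U.Bad n R n (init ω) b} ≤
      (4 * R * n : ℕ) * law p {ω | (0 : Site) ∉ U.infected (init ω) n} := by
  have hsub : {ω | U.Bad n R n (init ω) b} ⊆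
      ⋃ x ∈ frame R n b, {ω | x ∉ U.infected (init ω) n} := by
    rintro ω ⟨x, rfl, hx, hx2⟩
    simp only [mem_iUnion, mem_ofPred_eq]
    exact ⟨x, mem_frame hn hx, hx2⟩
  refine (measure_mono hsub).trans ((measure_biUnion_finset_le _ _).trans ?_)
  simp_rw [law_notMem hR p n]
  rw [Finset.sum_const, nsmul_eq_mul]
  gcongr
  exact card_frame R n b

/-- Far apart boxes have disjoint windows. -/
lemma disjoint_window {R n : ℕ} {b c : Site}
    (h : ((2 * R + 1 : ℕ) : ℤ) ≤ |b.1 - c.1| ∨ ((2 * R + 1 : ℕ) : ℤ) ≤ |b.2 - c.2|) :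
    Disjoint (window R n b) (window R n c) := by
  have key : ∀ u v : ℤ, ((2 * R + 1 : ℕ) : ℤ) ≤ |u - v| → ∀ x : ℤ,
      (n : ℤ) * (u - R) ≤ x → x ≤ (n : ℤ) * (u + R + 1) - 1 → (n : ℤ) * (v - R) ≤ x →
      x ≤ (n : ℤ) * (v + R + 1) - 1 → False := by
    intro u v huv x h1 h2 h3 h4
    push_cast at huv
    rcases le_abs'.mp huv with hv | hv
    · have : (n : ℤ) * (u + R + 1) ≤ n * (v - R) :=
        mul_le_mul_of_nonneg_left (by linarith) (by positivity)
      linarith
    · have : (n : ℤ) * (v + R + 1) ≤ n * (u - R) :=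
        mul_le_mul_of_nonneg_left (by linarith) (by positivity)
      linarith
  rw [Finset.disjoint_left]
  intro x hx hy
  simp only [window, Finset.mem_product, Finset.mem_Icc] at hx hy
  rcases h with h | h
  · exact key _ _ h x.1 hx.1.1 hx.1.2 hy.1.1 hy.1.2
  · exact key _ _ h x.2 hx.2.1 hx.2.2 hy.2.1 hy.2.2

/-- Far apart boxes are bad independently. -/
lemma law_all_bad_le {R n : ℕ} (hR : U.HasRange R) (hn : 1 ≤ n) (p : unitInterval) {d : ℝ≥0∞}
    (hd : ∀ b, law p {ω | U.Bad n R n (init ω) b} ≤ d) (C : Finset Site)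
    (hC : ∀ b ∈ C, ∀ c ∈ C, b ≠ c →
      ((2 * R + 1 : ℕ) : ℤ) ≤ |b.1 - c.1| ∨ ((2 * R + 1 : ℕ) : ℤ) ≤ |b.2 - c.2|) :
    law p {ω | ∀ b ∈ C, U.Bad n R n (init ω) b} ≤ d ^ C.card := by
  classical
  induction C using Finset.induction_on with
  | empty => simp
  | insert a C ha ih =>
    have hsplit : {ω | ∀ b ∈ insert a C, U.Bad n R n (init ω) b} =
        {ω | U.Bad n R n (init ω) a} ∩ {ω | ∀ b ∈ C, U.Bad n R n (init ω) b} := by
      ext ω; simp
    have hdep : DependsOn {ω | ∀ b ∈ C, U.Bad n R n (init ω) b}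
        (C.biUnion (window R n)) := by
      intro ω ω' h
      simp only [mem_ofPred_eq]
      refine forall_congr' fun b => imp_congr_right fun hb => ?_
      exact dependsOn_bad hR hn b ω ω' fun x hx =>
        h x (Finset.mem_biUnion.mpr ⟨b, hb, hx⟩)
    rw [hsplit, law_inter (dependsOn_bad hR hn a) hdep, Finset.card_insert_of_notMem ha, pow_succ,
      mul_comm]
    · exact mul_le_mul' (ih fun b hb c hc => hC b (Finset.mem_insert_of_mem hb) c
        (Finset.mem_insert_of_mem hc)) (hd a)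
    · rw [Finset.disjoint_biUnion_right]
      intro c hc
      exact disjoint_window (hC a (Finset.mem_insert_self _ _) c (Finset.mem_insert_of_mem hc)
        (fun e => ha (e ▸ hc)))

lemma far_of_emod_eq {D u v : ℤ} (h : u % D = v % D) (hne : u ≠ v) :
    D ≤ |u - v| := by
  have hdvd : D ∣ u - v := Int.ModEq.dvd (show v ≡ u [ZMOD D] from h.symm)
  exact (Int.le_of_dvd (abs_pos.mpr (sub_ne_zero.mpr hne))
    ((dvd_abs _ _).mpr hdvd))

/-- The probability of a long chain of bad boxes. -/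
lemma law_chain_le {R n : ℕ} (hR : U.HasRange R) (hn : 1 ≤ n) (p : unitInterval) {d : ℝ≥0∞}
    (hd1 : d ≤ 1) (hd : ∀ b, law p {ω | U.Bad n R n (init ω) b} ≤ d) (c : ℕ) (b : Site) :
    law p {ω | U.Chain n R n (init ω) ((2 * R + 1) ^ 2 * c) b} ≤
      (9 ^ ((2 * R + 1) ^ 2) * d) ^ c := by
  classical
  set D : ℕ := 2 * R + 1
  have hD0 : (0 : ℤ) < D := by positivity
  set N := D ^ 2 * c with hN
  have hsub : {ω | U.Chain n R n (init ω) N b} ⊆
      ⋃ l ∈ (paths N b).filter List.Nodup, {ω | ∀ b ∈ l, U.Bad n R n (init ω) b} := by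
    rintro ω ⟨l, hl, hl2, hl3⟩
    simp only [mem_iUnion, mem_ofPred_eq]
    exact ⟨l, Finset.mem_filter.mpr ⟨hl, hl2⟩, hl3⟩
  have hone : ∀ l ∈ (paths N b).filter List.Nodup,
      law p {ω | ∀ b ∈ l, U.Bad n R n (init ω) b} ≤ d ^ c := by
    intro l hl
    obtain ⟨hl1, hl2⟩ := Finset.mem_filter.mp hl
    have hcard : l.toFinset.card = N + 1 := by
      rw [List.toFinset_card_of_nodup hl2, length_of_mem_paths hl1]
    have hmaps : ∀ a ∈ l.toFinset, ((a.1 % (D : ℤ), a.2 % (D : ℤ)) : Site) ∈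
        (Finset.Ico (0 : ℤ) D) ×ˢ (Finset.Ico (0 : ℤ) D) := by
      intro a _
      simp only [Finset.mem_product, Finset.mem_Ico]
      exact ⟨⟨Int.emod_nonneg _ hD0.ne', Int.emod_lt_of_pos _ hD0⟩,
        ⟨Int.emod_nonneg _ hD0.ne', Int.emod_lt_of_pos _ hD0⟩⟩
    obtain ⟨y, _, hy⟩ := Finset.exists_le_card_fiber_of_mul_le_card_of_maps_to (n := c) hmaps
      ⟨(0, 0), by simp only [Finset.mem_product, Finset.mem_Ico]; exact ⟨⟨le_rfl, hD0⟩, ⟨le_rfl, hD0⟩⟩⟩
      (by
        rw [hcard, hN]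
        simp only [Finset.card_product, Int.card_Ico, sub_zero, Int.toNat_natCast]
        nlinarith)
    set C := l.toFinset.filter (fun a => ((a.1 % (D : ℤ), a.2 % (D : ℤ)) : Site) = y) with hCdef
    have hfar : ∀ b ∈ C, ∀ c ∈ C, b ≠ c →
        ((2 * R + 1 : ℕ) : ℤ) ≤ |b.1 - c.1| ∨ ((2 * R + 1 : ℕ) : ℤ) ≤ |b.2 - c.2| := by
      intro u hu v hv huv
      have hu' := (Finset.mem_filter.mp hu).2
      have hv' := (Finset.mem_filter.mp hv).2
      rw [← hv', Prod.mk.injEq] at hu'
      by_cases h1 : u.1 = v.1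
      · right
        have h2 : u.2 ≠ v.2 := fun h2 => huv (Prod.ext h1 h2)
        exact far_of_emod_eq hu'.2 h2
      · left
        exact far_of_emod_eq hu'.1 h1
    refine (measure_mono (t := {ω | ∀ b ∈ C, U.Bad n R n (init ω) b}) ?_).trans
      ((law_all_bad_le hR hn p hd C hfar).trans ?_)
    · intro ω hω b hb
      exact hω b (List.mem_toFinset.mp (Finset.mem_filter.mp hb).1)
    · exact pow_le_pow_right_of_le_one' hd1 hy
  refine (measure_mono hsub).trans ((measure_biUnion_finset_le _ _).trans ?_)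
  refine (Finset.sum_le_sum hone).trans ?_
  rw [Finset.sum_const, nsmul_eq_mul, mul_pow, ← pow_mul, ← hN]
  gcongr
  have h1 : ((paths N b).filter List.Nodup).card ≤ 9 ^ N :=
    (Finset.card_filter_le _ _).trans (card_paths N b)
  exact_mod_cast h1

/-- The threshold of the finite-size criterion. -/
noncomputable def thr (R : ℕ) : ℝ≥0∞ := (2 * 9 ^ ((2 * R + 1) ^ 2))⁻¹

lemma thr_pos (R : ℕ) : 0 < thr R := by
  unfold thr
  simp [ENNReal.mul_eq_top]

lemma thr_lt_one (R : ℕ) : thr R < 1 := by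
  unfold thr
  rw [ENNReal.inv_lt_one]
  have h9 : (1 : ℝ≥0∞) ≤ 9 ^ ((2 * R + 1) ^ 2) := one_le_pow₀ (by norm_num)
  calc (1 : ℝ≥0∞) < 2 * 1 := by norm_num
    _ ≤ 2 * 9 ^ ((2 * R + 1) ^ 2) := by gcongr

lemma mul_thr (R : ℕ) : 9 ^ ((2 * R + 1) ^ 2) * thr R = 2⁻¹ := by
  unfold thr
  rw [ENNReal.mul_inv (Or.inl (by norm_num)) (Or.inl (by norm_num)), mul_comm (2⁻¹ : ℝ≥0∞),
    ← mul_assoc, ENNReal.mul_inv_cancel (by positivity) (by finiteness), one_mul]

/-- Finite-size criterion. -/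
theorem percolates_of_small {R n : ℕ} (hR : U.HasRange R) (hRn : R ≤ n) (hH : U.NoHole)
    (p : unitInterval)
    (h : (4 * R * n : ℕ) * law p {ω | (0 : Site) ∉ U.infected (init ω) n} ≤ thr R) :
    law p {ω | U.closure (init ω) = univ} = 1 := by
  have hR1 : 1 ≤ R := by exact_mod_cast hR.1
  have hn : 1 ≤ n := hR1.trans hRn
  have hd : ∀ b, law p {ω | U.Bad n R n (init ω) b} ≤ thr R :=
    fun b => (law_bad_le hR hn p b).trans h
  have hae : ∀ᵐ ω ∂(law p), ∀ b, ∃ m, ¬ U.Chain n R n (init ω) m b := by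
    rw [ae_all_iff]
    intro b
    rw [ae_iff]
    have hle : ∀ c : ℕ, law p {ω | ¬ ∃ m, ¬ U.Chain n R n (init ω) m b} ≤ (2⁻¹ : ℝ≥0∞) ^ c := by
      intro c
      have := law_chain_le hR hn p (thr_lt_one R).le hd c b
      rw [mul_thr] at this
      refine (measure_mono ?_).trans this
      intro ω hω
      simp only [mem_ofPred_eq, not_exists, not_not] at hω ⊢
      exact hω _
    have hlim : Filter.Tendsto (fun c : ℕ => (2⁻¹ : ℝ≥0∞) ^ c) Filter.atTop (nhds 0) :=
      ENNReal.tendsto_pow_atTop_nhds_zero_of_lt_one (by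
        rw [ENNReal.inv_lt_one]; norm_num)
    exact le_antisymm (ge_of_tendsto' hlim hle) bot_le
  have hae2 : ∀ᵐ ω ∂(law p), U.closure (init ω) = univ := by
    filter_upwards [hae] with ω hω
    exact closure_eq_univ (L := n) (R := R) (t := n) (by exact_mod_cast hn)
      (by exact_mod_cast hRn) hR hH hω
  have : ({ω | U.closure (init ω) = univ} : Set Config) =ᵐ[law p] univ := by
    rw [Filter.eventuallyEq_univ]
    exact hae2
  rw [measure_congr this, measure_univ]

/-- If percolation occurs for some `p < 1` then there is no finite hole. -/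
lemma noHole_of_percolates {p : unitInterval} (hp : p < 1)
    (h : law p {ω | U.closure (init ω) = univ} = 1) : U.NoHole := by
  classical
  intro K hK hcl
  set F : Set Config := Set.pi (K : Set Site) (fun _ => {false}) with hF
  have hFpos : 0 < law p F := by
    rw [hF, law, Measure.infinitePi_pi _ (fun _ _ => measurableSet_singleton _)]
    simp only [siteLaw_singleton]
    rw [pos_iff_ne_zero, Finset.prod_ne_zero_iff]
    intro x _
    simp only [Bool.false_eq_true, if_false]
    rw [← pos_iff_ne_zero, ENNReal.ofReal_pos]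
    have : (p : ℝ) < 1 := by exact_mod_cast hp
    linarith
  have hFmeas : MeasurableSet F :=
    MeasurableSet.pi (Finset.countable_toSet _) (fun _ _ => measurableSet_singleton _)
  have hsub : {ω | U.closure (init ω) = univ} ⊆ Fᶜ := by
    intro ω hω hωF
    have h1 : init ω ⊆ (K : Set Site)ᶜ := by
      intro x hx hxK
      have := hωF x hxK
      simp only [init, mem_ofPred_eq] at hx
      simp [hx] at this
    have h2 := closure_subset_of_closed h1 hcl
    obtain ⟨x, hx⟩ := hK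
    have h3 : x ∈ U.closure (init ω) := by
      rw [show U.closure (init ω) = univ from hω]; trivial
    exact h2 h3 hx
  have h1 := measure_mono (μ := law p) hsub
  rw [h, measure_compl hFmeas (measure_ne_top _ _), measure_univ] at h1
  have h2 : (1 : ℝ≥0∞) - law p F < 1 := ENNReal.sub_lt_self (by simp) (by simp) hFpos.ne'
  exact absurd h1 (not_le.mpr h2)

end UpdateFamily

end Pool.Agent.Q61.Boot
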