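import Pool.Agent.Q61.BootGeo

/-!
# The Bernoulli measure and local events
-/

open MeasureTheory Set ProbabilityTheory
open scoped ENNReal

namespace Pool.Agent.Q61.Boot

/-- Configurations: `ω x = true` means that `x` is in the initial set. -/
abbrev Config : Type := Site → Bool

/-- The initial set. -/
def init (ω : Config) : Set Site := {x | ω x = true}

/-- The law of the state of one site. -/
noncomputable def siteLaw (p : unitInterval) : Measure Bool :=
  ENNReal.ofReal p • Measure.dirac true + ENNReal.ofReal (1 - p) • Measure.dirac false

instance (p : unitInterval) : IsProbabilityMeasure (siteLaw p) := by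
  constructor
  simp only [siteLaw, Measure.coe_add, Measure.coe_smul, Pi.add_apply, Pi.smul_apply,
    measure_univ, smul_eq_mul, mul_one]
  rw [← ENNReal.ofReal_add p.2.1 (by linarith [p.2.2])]
  simp

/-- The product measure `ℙ_p`. -/
noncomputable def law (p : unitInterval) : Measure Config := Measure.infinitePi (fun _ => siteLaw p)

instance (p : unitInterval) : IsProbabilityMeasure (law p) := by
  unfold law; infer_instance

lemma siteLaw_singleton (p : unitInterval) (b : Bool) :
    siteLaw p {b} = ENNReal.ofReal (if b then (p : ℝ) else 1 - p) := by
  cases b <;> simp [siteLaw]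

/-- The event `E` depends only on the coordinates in `S`. -/
def DependsOn (E : Set Config) (S : Finset Site) : Prop :=
  ∀ ω ω' : Config, (∀ x ∈ S, ω x = ω' x) → (ω ∈ E ↔ ω' ∈ E)

lemma DependsOn.eq_preimage {E : Set Config} {S : Finset Site} (h : DependsOn E S) :
    E = (S.restrict : Config → (S → Bool)) ⁻¹' (S.restrict '' E) := by
  ext ω
  constructor
  · intro hω
    exact ⟨ω, hω, rfl⟩
  · rintro ⟨ω', hω', e⟩
    refine (h ω' ω fun x hx => ?_).mp hω'
    exact congrFun e ⟨x, hx⟩

lemma DependsOn.measurableSet {E : Set Config} {S : Finset Site} (h : DependsOn E S) :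
    MeasurableSet E := by
  rw [h.eq_preimage]
  exact (Finset.measurable_restrict S) (Set.Finite.measurableSet (Set.toFinite _))

lemma DependsOn.mono {E : Set Config} {S T : Finset Site} (h : DependsOn E S) (hST : S ⊆ T) :
    DependsOn E T := fun ω ω' hω => h ω ω' fun x hx => hω x (hST hx)

lemma DependsOn.compl {E : Set Config} {S : Finset Site} (h : DependsOn E S) :
    DependsOn Eᶜ S := fun ω ω' hω => not_congr (h ω ω' hω)

/-- Independence of events depending on disjoint sets of sites. -/
lemma law_inter {p : unitInterval} {E F : Set Config} {S T : Finset Site} (hE : DependsOn E S)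
    (hF : DependsOn F T) (hST : Disjoint S T) : law p (E ∩ F) = law p E * law p F := by
  have hind : iIndepFun (fun (x : Site) (ω : Config) => ω x) (law p) := by
    have := iIndepFun_infinitePi (P := fun _ : Site => siteLaw p)
      (X := fun (_ : Site) (b : Bool) => b) (fun _ => measurable_id)
    exact this
  have h := hind.indepFun_finset S T hST (fun x => measurable_pi_apply x)
  have hE' := hE.eq_preimage
  have hF' := hF.eq_preimage
  have key := h.measure_inter_preimage_eq_mul (S.restrict '' E) (T.restrict '' F)
    (Set.Finite.measurableSet (Set.toFinite _)) (Set.Finite.measurableSet (Set.toFinite _))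
  calc law p (E ∩ F) = law p ((S.restrict ⁻¹' (S.restrict '' E)) ∩
        (T.restrict ⁻¹' (T.restrict '' F))) := by rw [← hE', ← hF']
    _ = law p (S.restrict ⁻¹' (S.restrict '' E)) * law p (T.restrict ⁻¹' (T.restrict '' F)) := key
    _ = law p E * law p F := by rw [← hE', ← hF']

/-- The probability of a local event is a continuous function of `p`. -/
lemma continuous_law {E : Set Config} {S : Finset Site} (hE : DependsOn E S) :
    Continuous fun p : unitInterval => law p E := by
  classical
  have h : ∀ p : unitInterval, law p E =
      ENNReal.ofReal (∑ s ∈ Finset.univ.filter (fun s : S → Bool => s ∈ S.restrict '' E),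
        ∏ x : S, (if s x then (p : ℝ) else 1 - p)) := by
    intro p
    have hnn : ∀ (s : S → Bool) (x : S), 0 ≤ (if s x then (p : ℝ) else 1 - p) := by
      intro s x
      split_ifs
      · exact p.2.1
      · linarith [p.2.2]
    rw [ENNReal.ofReal_sum_of_nonneg (fun s _ => Finset.prod_nonneg fun x _ => hnn s x)]
    conv_lhs => rw [hE.eq_preimage]
    rw [← Measure.map_apply (Finset.measurable_restrict S)
      (Set.Finite.measurableSet (Set.toFinite _))]
    unfold law
    rw [Measure.infinitePi_map_restrict]
    have hfin : (S.restrict '' E) =
        ⋃ s ∈ (Finset.univ.filter (fun s : S → Bool => s ∈ S.restrict '' E)), {s} := by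
      ext s
      simp only [Finset.mem_filter, Finset.mem_univ, true_and, mem_iUnion, mem_singleton_iff,
        exists_prop]
      constructor
      · intro h
        exact ⟨s, h, rfl⟩
      · rintro ⟨t, ht, rfl⟩
        exact ht
    conv_lhs => rw [hfin]
    rw [measure_biUnion_finset]
    · refine Finset.sum_congr rfl fun s _ => ?_
      rw [Measure.pi_singleton, ENNReal.ofReal_prod_of_nonneg (fun x _ => hnn s x)]
      refine Finset.prod_congr rfl fun x _ => ?_
      exact siteLaw_singleton p (s x)
    · intro s _ t _ hst
      simpa using hst
    · intro s _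
      exact measurableSet_singleton _
  simp_rw [h]
  refine ENNReal.continuous_ofReal.comp ?_
  refine continuous_finsetSum _ fun s _ => continuous_finsetProd _ fun x _ => ?_
  split_ifs
  · exact continuous_subtype_val
  · exact continuous_const.sub continuous_subtype_val

/-- Translation invariance. -/
lemma law_translate (p : unitInterval) (v : Site) {E : Set Config} (hE : MeasurableSet E) :
    law p {ω | (fun x => ω (x + v)) ∈ E} = law p E := by
  have h := Measure.infinitePi_map_piCongrLeft (X := fun _ : Site => Bool)
    (μ := fun _ : Site => siteLaw p) (Equiv.addRight (-v))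
  have h2 : law p E = ((law p).map (MeasurableEquiv.piCongrLeft (fun _ : Site => Bool)
      (Equiv.addRight (-v)))) E := by
    conv_lhs => rw [law, ← h]
    rfl
  rw [h2, Measure.map_apply (MeasurableEquiv.measurable _) hE]
  congr 1
  ext ω
  have : (MeasurableEquiv.piCongrLeft (fun _ : Site => Bool) (Equiv.addRight (-v))) ω =
      fun x => ω (x + v) := by
    ext x
    have e := Equiv.piCongrLeft_apply_apply (P := fun _ : Site => Bool)
      (Equiv.addRight (-v)) ω (x + v)
    have e2 : (Equiv.addRight (-v)) (x + v) = x := by simp
    rw [e2] at e
    exact e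
  simp only [mem_ofPred_eq, mem_preimage, this]

end Pool.Agent.Q61.Boot
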